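import Pool.Agent.Q255.IC.Stm

/-!
# Project IC: mixtures and independent signs (jobs S_MIX, S_IID)
-/

set_option autoImplicit false

namespace Pool.Agent.Q26.IC

open Filter Topology MeasureTheory Pool.Agent.Q255.IC
open scoped ENNReal

theorem mix : S_MIX := by
  intro ν₁ ν₂ _ _ q h0 h1
  have hq1 : ENNReal.ofReal q + ENNReal.ofReal (1 - q) = 1 := by
    rw [← ENNReal.ofReal_add h0 (by linarith)]
    simp
  refine ⟨⟨?_⟩, fun n => ?_⟩
  · rw [Measure.add_apply, Measure.smul_apply, Measure.smul_apply, measure_univ, measure_univ, smul_eq_mul,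
      smul_eq_mul, mul_one, mul_one, hq1]
  · unfold entropy
    rw [Finset.mul_sum, Finset.mul_sum, ← Finset.sum_add_distrib]
    refine Finset.sum_le_sum (fun s _ => ?_)
    have e1 : (ENNReal.ofReal q • ν₁ + ENNReal.ofReal (1 - q) • ν₂).real {ω | ∀ k : Fin n, ω k = s k} =
        q * ν₁.real {ω | ∀ k : Fin n, ω k = s k} + (1 - q) * ν₂.real {ω | ∀ k : Fin n, ω k = s k} := by
      rw [measureReal_def, Measure.add_apply, Measure.smul_apply, Measure.smul_apply, smul_eq_mul, smul_eq_mul,
        ENNReal.toReal_add (ENNReal.mul_ne_top ENNReal.ofReal_ne_top (measure_ne_top _ _))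
          (ENNReal.mul_ne_top ENNReal.ofReal_ne_top (measure_ne_top _ _)),
        ENNReal.toReal_mul, ENNReal.toReal_mul, ENNReal.toReal_ofReal h0, ENNReal.toReal_ofReal (by linarith)]
      rfl
    rw [e1]
    have h2 := Real.concaveOn_negMulLog.2 (x := ν₁.real {ω | ∀ k : Fin n, ω k = s k})
      (y := ν₂.real {ω | ∀ k : Fin n, ω k = s k}) measureReal_nonneg measureReal_nonneg h0
      (by linarith : 0 ≤ 1 - q) (by linarith)
    simpa only [smul_eq_mul] using h2

/-- the law of one sign -/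
noncomputable def one (u : ℝ) : Measure Bool :=
  ENNReal.ofReal ((1 - u) / 2) • Measure.dirac true + ENNReal.ofReal ((1 + u) / 2) • Measure.dirac false

/-- the weights of one sign -/
noncomputable def wgt (u : ℝ) (b : Bool) : ℝ := if b then (1 - u) / 2 else (1 + u) / 2

theorem one_singleton {u : ℝ} (b : Bool) : one u {b} = ENNReal.ofReal (wgt u b) := by
  unfold one wgt
  rw [Measure.add_apply, Measure.smul_apply, Measure.smul_apply]
  cases b <;> simp

theorem wgt_nonneg {u : ℝ} (h0 : 0 ≤ u) (h1 : u ≤ 1) (b : Bool) : 0 ≤ wgt u b := by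
  unfold wgt
  split_ifs <;> linarith

theorem one_prob {u : ℝ} (h0 : 0 ≤ u) (h1 : u ≤ 1) : IsProbabilityMeasure (one u) := by
  refine ⟨?_⟩
  unfold one
  rw [Measure.add_apply, Measure.smul_apply, Measure.smul_apply, measure_univ, measure_univ, smul_eq_mul,
    smul_eq_mul, mul_one, mul_one, ← ENNReal.ofReal_add (by linarith) (by linarith)]
  have : (1 - u) / 2 + (1 + u) / 2 = 1 := by ring
  rw [this, ENNReal.ofReal_one]

theorem sum_wgt (u : ℝ) (n : ℕ) : ∑ s : Fin n → Bool, ∏ k, wgt u (s k) = 1 := by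
  have h1 : ∑ b : Bool, wgt u b = 1 := by
    rw [Fintype.sum_bool]
    unfold wgt
    simp
    ring
  have h2 := Finset.prod_univ_sum (fun _ : Fin n => (Finset.univ : Finset Bool)) (fun _ b => wgt u b)
  rw [Fintype.piFinset_univ] at h2
  rw [← h2, h1]
  simp

theorem ent_wgt {u : ℝ} (n : ℕ) : ∑ s : Fin n → Bool, Real.negMulLog (∏ k, wgt u (s k)) =
    n * Real.binEntropy ((1 + u) / 2) := by
  induction n with
  | zero => simp
  | succ n ih =>
    have e1 : ∑ s : Fin (n + 1) → Bool, Real.negMulLog (∏ k, wgt u (s k)) =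
        ∑ b : Bool, ∑ s : Fin n → Bool, Real.negMulLog (wgt u b * ∏ k, wgt u (s k)) := by
      rw [← (Fin.consEquiv (fun _ => Bool)).sum_comp, Fintype.sum_prod_type]
      refine Finset.sum_congr rfl (fun b _ => Finset.sum_congr rfl (fun s _ => ?_))
      rw [Fin.prod_univ_succ]
      simp [Fin.consEquiv]
    rw [e1]
    have e2 : ∀ b : Bool, ∑ s : Fin n → Bool, Real.negMulLog (wgt u b * ∏ k, wgt u (s k)) =
        Real.negMulLog (wgt u b) + wgt u b * (n * Real.binEntropy ((1 + u) / 2)) := by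
      intro b
      rw [← ih, Finset.mul_sum, ← mul_one (Real.negMulLog (wgt u b)), ← sum_wgt u n, Finset.mul_sum,
        ← Finset.sum_add_distrib]
      refine Finset.sum_congr rfl (fun s _ => ?_)
      rw [Real.negMulLog_mul]
      ring
    rw [Fintype.sum_bool, e2, e2, Real.binEntropy_eq_negMulLog_add_negMulLog_one_sub]
    have e3 : 1 - (1 + u) / 2 = (1 - u) / 2 := by ring
    rw [e3]
    unfold wgt
    simp only [if_true, Bool.false_eq_true, if_false]
    push_cast
    ring

theorem law {u : ℝ} (h0 : 0 ≤ u) (h1 : u ≤ 1) (n : ℕ) (s : Fin n → Bool) :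
    (Measure.infinitePi (fun _ : ℕ => one u)).real {ω | ∀ k : Fin n, ω k = s k} = ∏ k, wgt u (s k) := by
  have := one_prob h0 h1
  classical
  let t : ℕ → Set Bool := fun i => if h : i < n then {s ⟨i, h⟩} else Set.univ
  have e1 : {ω : ℕ → Bool | ∀ k : Fin n, ω k = s k} = Set.pi (Finset.range n : Set ℕ) t := by
    ext ω
    simp only [Set.mem_ofPred_eq, Set.mem_pi, Finset.coe_range, Set.mem_Iio, t]
    constructor
    · intro h i hi
      rw [dif_pos hi]
      exact h ⟨i, hi⟩
    · intro h k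
      have := h k k.2
      rw [dif_pos k.2] at this
      exact this
  rw [e1, measureReal_def, Measure.infinitePi_pi _ (fun i _ => (Set.toFinite _).measurableSet),
    ENNReal.toReal_prod, Finset.prod_range]
  refine Finset.prod_congr rfl (fun k _ => ?_)
  simp only [t]
  rw [dif_pos k.2, one_singleton, ENNReal.toReal_ofReal (wgt_nonneg h0 h1 _)]

theorem sg_meas (b : ℝ) : Measurable (fun x : Bool => (if x then (1:ℝ) else -1) + b) := measurable_of_finite _

theorem tails {u : ℝ} (h0 : 0 ≤ u) (h1 : u ≤ 1) (n : ℕ) {r : ℝ} (hr : 0 ≤ r) :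
    (Measure.infinitePi (fun _ : ℕ => one u)).real
      {ω | r ≤ |∑ k ∈ Finset.range n, (sg ω k + u)|} ≤ 2 * Real.exp (-r ^ 2 / (2 * n)) := by
  have := one_prob h0 h1
  obtain ⟨P, hP⟩ : ∃ P, P = Measure.infinitePi (fun _ : ℕ => one u) := ⟨_, rfl⟩
  have hPp : IsProbabilityMeasure P := by rw [hP]; infer_instance
  have hind := ProbabilityTheory.iIndepFun_infinitePi (P := fun _ : ℕ => one u)
    (X := fun _ : ℕ => fun x : Bool => (if x then (1:ℝ) else -1) + u) (fun _ => sg_meas u)
  have hind2 := ProbabilityTheory.iIndepFun_infinitePi (P := fun _ : ℕ => one u)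
    (X := fun _ : ℕ => fun x : Bool => -((if x then (1:ℝ) else -1) + u)) (fun _ => (sg_meas u).neg)
  rw [← hP] at hind hind2 ⊢
  have hmeas : ∀ k : ℕ, Measurable (fun ω : ℕ → Bool => sg ω k) := by
    intro k
    have : Measurable (fun x : Bool => if x then (1:ℝ) else -1) := measurable_of_finite _
    exact this.comp (measurable_pi_apply k)
  have hint : ∀ k : ℕ, ∫ ω, sg ω k ∂P = -u := by
    intro k
    have e1 : ∫ ω, sg ω k ∂P = ∫ x, (if x then (1:ℝ) else -1) ∂(P.map (fun ω : ℕ → Bool => ω k)) := by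
      rw [integral_map (measurable_pi_apply k).aemeasurable
        (measurable_of_finite _).aestronglyMeasurable]
      rfl
    rw [e1, hP, Measure.infinitePi_map_eval]
    unfold one
    rw [integral_add_measure, integral_smul_measure, integral_smul_measure, integral_dirac, integral_dirac,
      ENNReal.toReal_ofReal (by linarith), ENNReal.toReal_ofReal (by linarith)]
    · simp; ring
    · exact (Integrable.of_finite (μ := Measure.dirac true)).smul_measure ENNReal.ofReal_ne_top
    · exact (Integrable.of_finite (μ := Measure.dirac false)).smul_measure ENNReal.ofReal_ne_top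
  have hsub : ∀ k : ℕ, ProbabilityTheory.HasSubgaussianMGF (fun ω => sg ω k + u) 1 P := by
    intro k
    have h3 := ProbabilityTheory.hasSubgaussianMGF_of_mem_Icc (μ := P) (a := -1) (b := 1)
      (X := fun ω : ℕ → Bool => sg ω k) (hmeas k).aemeasurable (by
        refine Eventually.of_forall (fun ω => ?_)
        unfold sg
        split_ifs <;> simp)
    rw [hint k] at h3
    have e2 : ((‖(1:ℝ) - -1‖₊ / 2) ^ 2 : NNReal) = 1 := by
      have : ‖(1:ℝ) - -1‖₊ = 2 := by
        apply NNReal.eq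
        rw [coe_nnnorm, Real.norm_eq_abs]
        norm_num
      rw [this]
      norm_num
    rw [e2] at h3
    simpa using h3
  have hsub2 : ∀ k : ℕ, ProbabilityTheory.HasSubgaussianMGF (fun ω => -(sg ω k + u)) 1 P := fun k => (hsub k).neg
  have k1 := ProbabilityTheory.HasSubgaussianMGF.measure_sum_range_ge_le_of_iIndepFun (n := n) hind
    (fun i _ => hsub i) hr
  have k2 := ProbabilityTheory.HasSubgaussianMGF.measure_sum_range_ge_le_of_iIndepFun (n := n) hind2
    (fun i _ => hsub2 i) hr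
  have e3 : {ω : ℕ → Bool | r ≤ |∑ k ∈ Finset.range n, (sg ω k + u)|} ⊆
      {ω | r ≤ ∑ k ∈ Finset.range n, ((if ω k then (1:ℝ) else -1) + u)} ∪
      {ω | r ≤ ∑ k ∈ Finset.range n, -((if ω k then (1:ℝ) else -1) + u)} := by
    intro ω hω
    rw [Set.mem_ofPred_eq] at hω
    rcases le_abs.1 hω with h | h
    · left; exact h
    · right
      rw [Set.mem_ofPred_eq, Finset.sum_neg_distrib]
      exact h
  refine (measureReal_mono e3).trans ((measureReal_union_le _ _).trans ?_)
  have e4 : -r ^ 2 / (2 * n * ((1 : NNReal) : ℝ)) = -r ^ 2 / (2 * n) := by simp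
  rw [e4] at k1 k2
  linarith

theorem summable_exp {δ : ℝ} (hδ : 0 < δ) : Summable (fun n : ℕ => Real.exp (-(n : ℝ) ^ δ / 2)) := by
  obtain ⟨m, hm⟩ := exists_nat_gt (2 / δ)
  have hm2 : 2 ≤ δ * m := by
    rw [div_lt_iff₀ hδ] at hm
    linarith
  have hs : Summable (fun n : ℕ => (2 ^ m * m.factorial : ℝ) * (1 / (n : ℝ) ^ 2)) :=
    (Real.summable_one_div_nat_pow.2 (by norm_num)).mul_left _
  have hs2 : Summable (fun n : ℕ => if n = 0 then (1:ℝ) else 0) := by
    refine summable_of_ne_finset_zero (s := {0}) (fun n hn => ?_)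
    rw [Finset.mem_singleton] at hn
    rw [if_neg hn]
  refine Summable.of_nonneg_of_le (fun n => (Real.exp_pos _).le) (fun n => ?_) (hs.add hs2)
  rcases Nat.eq_zero_or_pos n with h0 | h0
  · subst h0
    simp [Real.zero_rpow hδ.ne']
  · rw [if_neg (by omega), add_zero]
    have hn : (1:ℝ) ≤ n := by exact_mod_cast h0
    have hx : 0 ≤ (n:ℝ) ^ δ / 2 := by positivity
    have h2 := Real.pow_div_factorial_le_exp _ hx m
    have h3 : Real.exp (-(n : ℝ) ^ δ / 2) = (Real.exp ((n:ℝ) ^ δ / 2))⁻¹ := by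
      rw [← Real.exp_neg]; congr 1; ring
    rw [h3]
    have h4 : (n:ℝ) ^ 2 / (2 ^ m * m.factorial) ≤ Real.exp ((n:ℝ) ^ δ / 2) := by
      refine le_trans ?_ h2
      rw [div_pow, div_div]
      refine div_le_div_of_nonneg_right ?_ (by positivity)
      rw [← Real.rpow_natCast ((n:ℝ) ^ δ) m, ← Real.rpow_mul (by linarith)]
      calc (n:ℝ) ^ 2 = (n:ℝ) ^ (2:ℝ) := by norm_cast
        _ ≤ _ := Real.rpow_le_rpow_of_exponent_le hn hm2
    calc (Real.exp ((n:ℝ) ^ δ / 2))⁻¹ ≤ ((n:ℝ) ^ 2 / (2 ^ m * m.factorial))⁻¹ :=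
          inv_anti₀ (by positivity) h4
      _ = _ := by rw [inv_div]; ring

theorem iid : S_IID := by
  intro u h0 h1
  have := one_prob h0 h1
  refine ⟨Measure.infinitePi (fun _ : ℕ => one u), inferInstance, fun n => ?_, ?_⟩
  · unfold entropy
    rw [← ent_wgt n]
    exact Finset.sum_congr rfl (fun s _ => by rw [law h0 h1])
  · have key : ∀ r : ℕ, ∀ᵐ ω ∂(Measure.infinitePi (fun _ : ℕ => one u)), ∀ᶠ n : ℕ in atTop,
        ω ∉ {ω : ℕ → Bool | (n : ℝ) ^ (1 / 2 + 1 / ((r : ℝ) + 1)) ≤ |∑ k ∈ Finset.range n, (sg ω k + u)|} := by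
      intro r
      apply ae_eventually_notMem
      have hδ : 0 < 2 * (1 / ((r : ℝ) + 1)) := by positivity
      have hs := (summable_exp hδ).mul_left 2
      have hb : ∀ n : ℕ, (Measure.infinitePi (fun _ : ℕ => one u))
          {ω : ℕ → Bool | (n : ℝ) ^ (1 / 2 + 1 / ((r : ℝ) + 1)) ≤ |∑ k ∈ Finset.range n, (sg ω k + u)|} ≤
          ENNReal.ofReal (2 * Real.exp (-(n : ℝ) ^ (2 * (1 / ((r : ℝ) + 1))) / 2)) := by
        intro n
        rw [← ofReal_measureReal]
        apply ENNReal.ofReal_le_ofReal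
        refine (tails h0 h1 n (by positivity)).trans (le_of_eq ?_)
        rcases Nat.eq_zero_or_pos n with h2 | h2
        · subst h2
          have e0 : ((0:ℕ):ℝ) ^ (2 * (1 / ((r : ℝ) + 1))) = 0 := by
            rw [Nat.cast_zero, Real.zero_rpow hδ.ne']
          rw [e0]
          simp
        · have hn : (0:ℝ) < n := by exact_mod_cast h2
          congr 2
          rw [← Real.rpow_natCast ((n:ℝ) ^ _), ← Real.rpow_mul hn.le]
          have e1 : (1 / 2 + 1 / ((r : ℝ) + 1)) * ((2 : ℕ) : ℝ) = 1 + 2 * (1 / ((r : ℝ) + 1)) := by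
            push_cast; ring
          rw [e1, Real.rpow_add hn, Real.rpow_one]
          field_simp
      refine ne_top_of_le_ne_top ?_ (ENNReal.tsum_le_tsum hb)
      rw [← ENNReal.ofReal_tsum_of_nonneg (fun n => by positivity) hs]
      exact ENNReal.ofReal_ne_top
    filter_upwards [ae_all_iff.2 key] with ω hω δ hδ
    obtain ⟨r, hr⟩ := exists_nat_one_div_lt hδ
    obtain ⟨N, hN⟩ := eventually_atTop.1 (hω r)
    refine ⟨1 + ∑ n ∈ Finset.range N, |∑ k ∈ Finset.range n, (sg ω k + u)|, fun n => ?_⟩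
    rcases Nat.eq_zero_or_pos n with h2 | h2
    · subst h2
      have : (0:ℝ) < 1 / 2 + δ := by linarith
      simp only [Finset.range_zero, Finset.sum_empty, abs_zero, Nat.cast_zero]
      rw [Real.zero_rpow this.ne', mul_zero]
    · have hn : (1:ℝ) ≤ n := by exact_mod_cast h2
      have hp : 1 ≤ (n:ℝ) ^ (1 / 2 + δ) := Real.one_le_rpow hn (by linarith)
      have hS : 0 ≤ ∑ n ∈ Finset.range N, |∑ k ∈ Finset.range n, (sg ω k + u)| :=
        Finset.sum_nonneg (fun _ _ => abs_nonneg _)
      rcases lt_or_ge n N with h3 | h3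
      · have h4 : |∑ k ∈ Finset.range n, (sg ω k + u)| ≤
            ∑ n ∈ Finset.range N, |∑ k ∈ Finset.range n, (sg ω k + u)| :=
          Finset.single_le_sum (f := fun n => |∑ k ∈ Finset.range n, (sg ω k + u)|)
            (fun _ _ => abs_nonneg _) (Finset.mem_range.2 h3)
        nlinarith
      · have h4 := hN n h3
        rw [not_le] at h4
        have h5 : (n:ℝ) ^ (1 / 2 + 1 / ((r : ℝ) + 1)) ≤ (n:ℝ) ^ (1 / 2 + δ) :=
          Real.rpow_le_rpow_of_exponent_le hn (by linarith)
        nlinarith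

end Pool.Agent.Q26.IC
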