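import Pool.Agent.Q255.IC.Stm

/-!
# Project IC: the sum over the primes (job S_PZ)
-/

set_option autoImplicit false

namespace Pool.Agent.Q26.IC

open Filter Topology MeasureTheory Pool.Agent.Q255.IC
open scoped ENNReal

theorem pr_prime (k : ℕ) : (pr k).Prime := Nat.prime_nth_prime k

/-- the `k`-th prime as an element of the type of primes -/
noncomputable def eqv : ℕ ≃ Nat.Primes :=
  Equiv.ofBijective (fun k => (⟨pr k, pr_prime k⟩ : Nat.Primes)) (by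
    constructor
    · intro a b h
      have h1 : pr a = pr b := congrArg (fun q : Nat.Primes => (q : ℕ)) h
      exact Nat.nth_injective Nat.infinite_setOf_prime h1
    · intro q
      refine ⟨Nat.count Nat.Prime q, ?_⟩
      apply Subtype.ext
      exact Nat.nth_count q.2)

theorem eqv_apply (k : ℕ) : ((eqv k : Nat.Primes) : ℕ) = pr k := rfl

theorem summable_pr {r : ℝ} (hr : r < -1) : Summable fun k : ℕ => (pr k : ℝ) ^ r := by
  have h1 := Nat.Primes.summable_rpow.2 hr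
  exact (Equiv.summable_iff eqv).2 h1

theorem tsum_pr (r : ℝ) : ∑' k : ℕ, (pr k : ℝ) ^ r = ∑' q : Nat.Primes, (q : ℝ) ^ r :=
  Equiv.tsum_eq eqv (fun q : Nat.Primes => ((q : ℕ) : ℝ) ^ r)

theorem log_bd {y : ℝ} (h0 : 0 ≤ y) (h1 : y ≤ 1 / 2) : |-Real.log (1 - y) - y| ≤ 2 * y ^ 2 := by
  have h2 : 0 < 1 - y := by linarith
  have h3 : Real.log (1 - y) ≤ (1 - y) - 1 := Real.log_le_sub_one_of_pos h2
  have h4 : Real.log (1 - y)⁻¹ ≤ (1 - y)⁻¹ - 1 := Real.log_le_sub_one_of_pos (inv_pos.2 h2)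
  rw [Real.log_inv] at h4
  have h5 : (1 - y)⁻¹ - 1 ≤ y + 2 * y ^ 2 := by
    rw [inv_eq_one_div, div_sub_one h2.ne', div_le_iff₀ h2]
    nlinarith [mul_nonneg (mul_nonneg h0 h0) (by linarith : 0 ≤ 1 - 2 * y)]
  rw [abs_le]
  constructor
  · nlinarith [sq_nonneg y]
  · linarith

/-- `h ζ(1+h)` is between two positive constants -/
theorem zeta_bd : ∃ c C : ℝ, 0 < c ∧ 0 < C ∧ ∀ h : ℝ, 0 < h → h ≤ 1 →
    c ≤ h * ‖riemannZeta ((1 + h : ℝ) : ℂ)‖ ∧ h * ‖riemannZeta ((1 + h : ℝ) : ℂ)‖ ≤ C := by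
  obtain ⟨g, hg⟩ : ∃ g : ℂ → ℂ, g = Function.update (fun s => (s - 1) * riemannZeta s) 1 1 := ⟨_, rfl⟩
  have hg1 : g 1 = 1 := by rw [hg]; simp
  have hgne : ∀ s : ℂ, s ≠ 1 → g s = (s - 1) * riemannZeta s := fun s hs => by
    rw [hg, Function.update_of_ne hs]
  have hc : Continuous g := by
    rw [continuous_iff_continuousAt]
    intro s
    by_cases hs : s = 1
    · rw [hs, hg]
      rw [continuousAt_update_same]
      exact riemannZeta_residue_one
    · have h1 : ContinuousAt (fun s => (s - 1) * riemannZeta s) s :=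
        (continuousAt_id.sub continuousAt_const).mul (differentiableAt_riemannZeta hs).continuousAt
      have h2 : g =ᶠ[𝓝 s] (fun s => (s - 1) * riemannZeta s) := by
        filter_upwards [isOpen_compl_singleton.mem_nhds hs] with z hz
        exact hgne z hz
      exact h1.congr h2.symm
  have hf : Continuous (fun x : ℝ => ‖g ((1 + x : ℝ) : ℂ)‖) := by
    refine continuous_norm.comp (hc.comp ?_)
    exact Complex.continuous_ofReal.comp (by fun_prop)
  have hK : IsCompact (Set.Icc (0:ℝ) 1) := isCompact_Icc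
  have hne : (Set.Icc (0:ℝ) 1).Nonempty := ⟨0, by simp⟩
  obtain ⟨a, ha, hmin⟩ := hK.exists_isMinOn hne hf.continuousOn
  obtain ⟨b, hb, hmax⟩ := hK.exists_isMaxOn hne hf.continuousOn
  have hpos : ∀ x : ℝ, 0 ≤ x → 0 < ‖g ((1 + x : ℝ) : ℂ)‖ := by
    intro x hx
    rw [norm_pos_iff]
    rcases hx.eq_or_lt with h0 | h0
    · rw [← h0]
      simp [hg1]
    · have hne1 : ((1 + x : ℝ) : ℂ) ≠ 1 := by
        intro h
        have : (1 + x : ℝ) = 1 := by exact_mod_cast h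
        linarith
      rw [hgne _ hne1]
      refine mul_ne_zero (sub_ne_zero.2 hne1) ?_
      apply riemannZeta_ne_zero_of_one_le_re
      rw [Complex.ofReal_re]
      linarith
  refine ⟨_, _, hpos a ha.1, hpos b hb.1, fun h h0 h1 => ?_⟩
  have hne1 : ((1 + h : ℝ) : ℂ) ≠ 1 := by
    intro h'
    have : (1 + h : ℝ) = 1 := by exact_mod_cast h'
    linarith
  have e1 : ‖g ((1 + h : ℝ) : ℂ)‖ = h * ‖riemannZeta ((1 + h : ℝ) : ℂ)‖ := by
    rw [hgne _ hne1, norm_mul]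
    congr 1
    have : ((1 + h : ℝ) : ℂ) - 1 = ((h : ℝ) : ℂ) := by push_cast; ring
    rw [this, Complex.norm_real, Real.norm_of_nonneg h0.le]
  rw [← e1]
  exact ⟨hmin ⟨h0.le, h1⟩, hmax ⟨h0.le, h1⟩⟩

theorem pz : S_PZ := by
  obtain ⟨c, C, hc, hC, hz⟩ := zeta_bd
  obtain ⟨K, hK⟩ : ∃ K : ℝ, K = ∑' q : Nat.Primes, 2 * ((q : ℕ) : ℝ) ^ (-2 : ℝ) := ⟨_, rfl⟩
  have hsumK : Summable (fun q : Nat.Primes => 2 * ((q : ℕ) : ℝ) ^ (-2 : ℝ)) :=
    (Nat.Primes.summable_rpow.2 (by norm_num)).mul_left 2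
  refine ⟨K + |Real.log c| + |Real.log C|, fun h h0 h1 => ⟨summable_pr (by linarith), ?_⟩⟩
  rw [tsum_pr]
  have hs : 1 < ((1 + h : ℝ) : ℂ).re := by rw [Complex.ofReal_re]; linarith
  have hsum : Summable (fun q : Nat.Primes => ((q : ℕ) : ℝ) ^ (-1 - h)) :=
    Nat.Primes.summable_rpow.2 (by linarith)
  have hcp : ∀ q : Nat.Primes, ((q : ℕ) : ℂ) ^ (-((1 + h : ℝ) : ℂ)) = ((((q : ℕ) : ℝ) ^ (-1 - h) : ℝ) : ℂ) := by
    intro q
    rw [Complex.ofReal_cpow (Nat.cast_nonneg _)]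
    congr 1
    push_cast; ring
  have hy : ∀ q : Nat.Primes, 0 ≤ ((q : ℕ) : ℝ) ^ (-1 - h) ∧ ((q : ℕ) : ℝ) ^ (-1 - h) ≤ 1 / 2 := by
    intro q
    have hq : (2 : ℝ) ≤ (q : ℕ) := by exact_mod_cast q.2.two_le
    refine ⟨Real.rpow_nonneg (by linarith) _, ?_⟩
    calc ((q : ℕ) : ℝ) ^ (-1 - h) ≤ ((q : ℕ) : ℝ) ^ (-1 : ℝ) :=
          Real.rpow_le_rpow_of_exponent_le (by linarith) (by linarith)
      _ = ((q : ℕ) : ℝ)⁻¹ := Real.rpow_neg_one _
      _ ≤ 1 / 2 := by rw [one_div]; exact inv_anti₀ (by norm_num) hq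
  have hclog : Summable (fun q : Nat.Primes => -Complex.log (1 - ((q : ℕ) : ℂ) ^ (-((1 + h : ℝ) : ℂ)))) := by
    have h2 : Summable (fun q : Nat.Primes => ((q : ℕ) : ℂ) ^ (-((1 + h : ℝ) : ℂ))) := by
      refine Summable.congr ?_ (fun q => (hcp q).symm)
      exact Complex.summable_ofReal.2 hsum
    exact h2.clog_one_sub.neg
  have hre : ∀ q : Nat.Primes, (-Complex.log (1 - ((q : ℕ) : ℂ) ^ (-((1 + h : ℝ) : ℂ)))).re =
      -Real.log (1 - ((q : ℕ) : ℝ) ^ (-1 - h)) := by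
    intro q
    have h3 := hy q
    rw [hcp q, Complex.neg_re, ← Complex.ofReal_one, ← Complex.ofReal_sub,
      ← Complex.ofReal_log (by linarith), Complex.ofReal_re]
  have hE := riemannZeta_eulerProduct_exp_log hs
  have hn : Real.log ‖riemannZeta ((1 + h : ℝ) : ℂ)‖ =
      ∑' q : Nat.Primes, -Real.log (1 - ((q : ℕ) : ℝ) ^ (-1 - h)) := by
    rw [← hE, Complex.norm_exp, Real.log_exp, Complex.re_tsum hclog]
    exact tsum_congr hre
  have hsl : Summable (fun q : Nat.Primes => -Real.log (1 - ((q : ℕ) : ℝ) ^ (-1 - h))) := by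
    have := Complex.reCLM.summable hclog
    refine this.congr (fun q => ?_)
    exact hre q
  have hd : |(∑' q : Nat.Primes, -Real.log (1 - ((q : ℕ) : ℝ) ^ (-1 - h))) -
      ∑' q : Nat.Primes, ((q : ℕ) : ℝ) ^ (-1 - h)| ≤ K := by
    rw [← hsl.tsum_sub hsum, ← Real.norm_eq_abs, hK]
    refine tsum_of_norm_bounded hsumK.hasSum (fun q => ?_)
    rw [Real.norm_eq_abs]
    refine (log_bd (hy q).1 (hy q).2).trans ?_
    have hq : (1 : ℝ) ≤ (q : ℕ) := by exact_mod_cast q.2.one_lt.le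
    have e1 : (((q : ℕ) : ℝ) ^ (-1 - h)) ^ 2 ≤ ((q : ℕ) : ℝ) ^ (-2 : ℝ) := by
      rw [← Real.rpow_natCast, ← Real.rpow_mul (by linarith)]
      apply Real.rpow_le_rpow_of_exponent_le hq
      push_cast; linarith
    linarith
  rw [← hn] at hd
  obtain ⟨z1, z2⟩ := hz h h0 h1
  have hzpos : 0 < ‖riemannZeta ((1 + h : ℝ) : ℂ)‖ := by
    by_contra hcon
    have : h * ‖riemannZeta ((1 + h : ℝ) : ℂ)‖ ≤ 0 := mul_nonpos_of_nonneg_of_nonpos h0.le (not_lt.1 hcon)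
    linarith
  have e2 : Real.log c ≤ Real.log h + Real.log ‖riemannZeta ((1 + h : ℝ) : ℂ)‖ := by
    rw [← Real.log_mul h0.ne' hzpos.ne']
    exact Real.log_le_log hc z1
  have e3 : Real.log h + Real.log ‖riemannZeta ((1 + h : ℝ) : ℂ)‖ ≤ Real.log C := by
    rw [← Real.log_mul h0.ne' hzpos.ne']
    exact Real.log_le_log (mul_pos h0 hzpos) z2
  have e4 := neg_abs_le (Real.log c)
  have e5 := le_abs_self (Real.log C)
  have e6 := abs_nonneg (Real.log c)
  have e7 := abs_nonneg (Real.log C)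
  rw [abs_le] at hd ⊢
  constructor <;> linarith [hd.1, hd.2]

end Pool.Agent.Q26.IC
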